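import Pool.Agent.Helper17.SLD.Goals
import Pool.Agent.Helper16.SLD.FIN
import Pool.Agent.Helper17.SL.GoalsG

/-!
# Project SLD (MP_fc6b1e_nt), packet R3: the rank in degree `3`
-/

namespace Pool.Agent.Helper17.SLD.PkR3

open Pool.Agent.Helper17.SLD
open Pool.Agent.Helper17.SL Pool.Agent.Helper42.SLC
open Pool.Agent.Helper51.SigLeo Pool.Agent.Helper51.SixExp NumberField Module TensorProduct

set_option linter.unusedSectionVars false

universe u v w x

/-- Two embeddings of a field of degree `3` different from a given one. -/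
theorem exists_two (F : Type u) [Field F] [NumberField F] (h3 : finrank ℚ F = 3)
    (s : F →+* ℂ) : ∃ r : Fin 2 → (F →+* ℂ), r 0 ≠ r 1 ∧ ∀ i, r i ≠ s := by
  classical
  have hc : Fintype.card (F →+* ℂ) = 3 := by rw [Embeddings.card, h3]
  have h1 : ((Finset.univ : Finset (F →+* ℂ)).erase s).card = 2 := by
    rw [Finset.card_erase_of_mem (Finset.mem_univ _), Finset.card_univ, hc]
  obtain ⟨a, b, hab, he⟩ := Finset.card_eq_two.mp h1
  have ha : a ∈ (Finset.univ : Finset (F →+* ℂ)).erase s := by rw [he]; simp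
  have hb : b ∈ (Finset.univ : Finset (F →+* ℂ)).erase s := by rw [he]; simp
  refine ⟨![a, b], hab, fun i ↦ ?_⟩
  fin_cases i
  · exact (Finset.mem_erase.mp ha).1
  · exact (Finset.mem_erase.mp hb).1

theorem thm (hRANK : S_RANK.{w, x, w, v}) (hND : S_ND.{u, v, w, x, w}) (hLOW : S_LOW.{u, v})
    (hDETP : S_DETP.{0, v}) : S_R3.{u, v, w, x} := by
  intro F _ _ _ N _ _ _ _ _ Ω _ _ _ _ p _ k _ _ _ _ ιp Λ θ s σ h3 hσ hodd
  classical
  have hchar : CharZero k := charZero_of_padic p (k := k)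
  -- the lift of the frame
  have hlift : ∀ m, ∃ τ : N →+* Ω, ιp.comp τ = σ m := fun m ↦ PkFIN.exists_lift_range ιp (σ m)
  choose τ hτ using hlift
  have hτinj : Function.Injective (fun m ↦ (τ m).comp (algebraMap F N)) := by
    intro m m' hmm
    apply hσ
    show (σ m).comp (algebraMap F N) = (σ m').comp (algebraMap F N)
    rw [← hτ m, ← hτ m', RingHom.comp_assoc, RingHom.comp_assoc]
    exact congrArg (fun z ↦ ιp.comp z) hmm
  -- the descent
  obtain ⟨E, hE, ψ, hψ⟩ := PkFIN.descentN ιp (J := Unit) (fun _ ↦ θ)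
  set lam : E →+* Ω := algebraMap E Ω with hlam
  set j : E →+* k := ιp.comp lam with hjdef
  set θ₁ : (N ≃ₐ[F] N) →* Eˣ := ψ () with hθ₁
  have hjθ : ∀ g, j ((θ₁ g : Eˣ) : E) = θ g := fun g ↦ hψ () g
  have hval : ∀ g, (θ g = 1 → θ₁ g = 1) ∧ (θ g = -1 → θ₁ g = -1) := by
    intro g
    constructor
    · intro h1
      apply Units.ext
      apply j.injective
      rw [hjθ, h1, Units.val_one, Units.val_one, map_one]
    · intro h1
      apply Units.ext
      apply j.injective
      rw [hjθ, h1, Units.val_neg, Units.val_neg, Units.val_one, Units.val_one, map_neg, map_one]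
  have hodd₁ : OddAt s θ₁ := by
    intro ρ c hρ
    exact ⟨fun h ↦ (hval c).2 ((hodd ρ c hρ).1 h), fun h ↦ (hval c).1 ((hodd ρ c hρ).2 h)⟩
  -- an embedding of `Ω` in `ℂ`
  obtain ⟨ρ₀⟩ : Nonempty (N →+* ℂ) := inferInstance
  obtain ⟨ι', -⟩ := exists_comp_eq (τ 0) ρ₀
  set ε : E →+* ℂ := ι'.comp lam with hεdef
  obtain ⟨ρs, hρs⟩ := exists_extend_embedding (H := N) s
  obtain ⟨r, hr01, hrs⟩ := exists_two F h3 s
  have hext : ∀ i, ∃ ρ : N →+* ℂ, ρ.comp (algebraMap F N) = r i := fun i ↦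
    exists_extend_embedding (H := N) (r i)
  choose ρ hρ using hext
  set θC : (N ≃ₐ[F] N) →* ℂˣ := (Units.map (ε : E →* ℂ)).comp θ₁ with hθC
  have hθCval : ∀ g, ((θC g : ℂˣ) : ℂ) = ε ((θ₁ g : Eˣ) : E) := fun g ↦ rfl
  -- linear independence of the archimedean functions
  have hlow : ∀ z : Fin 2 → ℂ, (∀ v, ∑ i, z i * tw θC (archLog (ρ i)) v = 0) → z = 0 := by
    refine hLOW F N θC 2 ρ ?_ ?_ ?_
    · intro h1
      obtain ⟨c, hc⟩ := PkGA7.thm F N ℂ ρs (ComplexEmbedding.conjugate ρs) (by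
        rw [ComplexEmbedding.conjugate_comp, conjugate_real])
      have h2 := (hodd₁ _ c hc).1 hρs
      have h4 : ε ((θ₁ c : Eˣ) : E) = 1 := by
        rw [← hθCval, h1]; rfl
      rw [h2, Units.val_neg, Units.val_one, map_neg, map_one] at h4
      norm_num at h4
    · intro i i' hii h1
      rw [hρ, hρ, InfinitePlace.mk_eq_iff, conjugate_real, or_self] at h1
      fin_cases i <;> fin_cases i'
      · exact hii rfl
      · exact hr01 h1
      · exact hr01 h1.symm
      · exact hii rfl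
    · intro i c hc
      have h2 := (hodd₁ _ c hc).2 (by rw [hρ]; exact hrs i)
      apply Units.ext
      rw [hθCval, h2, Units.val_one, map_one, Units.val_one]
  obtain ⟨v, hv⟩ := hDETP ℂ (Additive (𝓞 N)ˣ) 2 (fun i v ↦ tw θC (archLog (ρ i)) v) (by
    rw [Fintype.linearIndependent_iff]
    intro z hz i
    have h1 := hlow z (fun v ↦ by
      have h2 := congrFun hz v
      rw [Finset.sum_apply] at h2
      exact h2)
    rw [h1]; rfl)
  have hindE : LinearIndependent E (fun j' : Fin 2 ↦ tchi θ₁ (v j')) := by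
    rw [Fintype.linearIndependent_iff]
    intro g hg
    have h1 : ∀ i, ∑ j', (fun i j' ↦ tw θC (archLog (ρ i)) (v j')) i j' * ε (g j') = 0 := by
      intro i
      have h2 := congrArg (Phi ε (archLog (ρ i))) hg
      rw [map_sum, map_zero] at h2
      rw [← h2]
      refine Finset.sum_congr rfl fun j' _ ↦ ?_
      rw [Phi_smul, Phi_eq_tw', smul_eq_mul]
      exact mul_comm _ _
    have h4 := Matrix.eq_zero_of_mulVec_eq_zero hv (v := fun j' ↦ ε (g j')) (by
      funext i
      exact h1 i)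
    intro j'
    exact (map_eq_zero ε).mp (congrFun h4 j')
  refine ⟨v, ?_⟩
  by_contra hdep
  -- the matrix has rank one
  obtain ⟨X, Z, hXZ⟩ : ∃ (X : Fin 3 → Fin 1 → k) (Z : Fin 1 → Fin 2 → k),
      ∀ m q, vec Λ θ σ (v q) m = ∑ t, X m t * Z t q := by
    rw [Fintype.linearIndependent_iff] at hdep
    push Not at hdep
    obtain ⟨g, hg, i, hi⟩ := hdep
    rw [Fin.sum_univ_two] at hg
    have hg' : ∀ m, g 0 * vec Λ θ σ (v 0) m + g 1 * vec Λ θ σ (v 1) m = 0 := fun m ↦ by
      have := congrFun hg m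
      simpa using this
    by_cases h0 : g 0 = 0
    · have h1 : g 1 ≠ 0 := by
        fin_cases i
        · exact absurd h0 hi
        · exact hi
      refine ⟨fun m _ ↦ vec Λ θ σ (v 0) m, fun _ q ↦ if q = 0 then 1 else -(g 0 / g 1), ?_⟩
      intro m q
      rw [Fin.sum_univ_one]
      fin_cases q
      · simp
      · have h5 := hg' m
        simp only [Fin.mk_one, Fin.isValue, one_ne_zero, if_false]
        field_simp
        linear_combination h5
    · refine ⟨fun m _ ↦ vec Λ θ σ (v 1) m, fun _ q ↦ if q = 0 then -(g 1 / g 0) else 1, ?_⟩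
      intro m q
      rw [Fin.sum_univ_one]
      fin_cases q
      · have h5 := hg' m
        simp only [Fin.zero_eta, Fin.isValue, if_true]
        field_simp
        linear_combination h5
      · simp
  obtain ⟨a, c', ha0, hc'0, hac⟩ := hRANK p k Ω ιp Λ E lam 3 2 1 (N ≃ₐ[F] N)
    (fun m q g ↦ ((θ₁ g⁻¹ : Eˣ) : E)) (fun m q g ↦ img (τ m) (unitsHom g (v q)).toMul)
    (fun m q ↦ vec Λ θ σ (v q) m) X Z (fun m q g ↦ img_isUnitAlg _ _) (by
      intro m q
      show tw θ (logUnits Λ (σ m)) (v q) = ∑ g, ιp (lam ((θ₁ g⁻¹ : Eˣ) : E)) *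
        Λ.toFun (Units.map (ιp : Ω →* k) (img (τ m) (unitsHom g (v q)).toMul))
      unfold tw
      refine Finset.sum_congr rfl fun g _ ↦ ?_
      rw [log_img, hτ m]
      congr 1
      exact (hjθ g⁻¹).symm) hXZ (by norm_num)
  refine hND F N Ω p k ιp Λ E lam θ₁ 2 0 3 (fun i ↦ i.elim0) s τ v (fun i ↦ i.elim0)
    (fun i ↦ i.elim0) le_rfl hτinj hodd₁ (fun i ↦ i.elim0) (fun i ↦ i.elim0) (fun i ↦ i.elim0)
    hindE (fun i ↦ i.elim0) a c' 0 ha0 (Or.inl hc'0) ?_
  rw [← hac]
  refine Finset.sum_congr rfl fun m _ ↦ ?_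
  rw [Finset.univ_eq_empty (α := Fin 0), Finset.sum_empty, add_zero, Finset.mul_sum]
  refine Finset.sum_congr rfl fun j' _ ↦ ?_
  rw [Phi_eq_tw (ιp.comp lam) θ₁ θ hjθ, hτ m, mul_assoc]
  rfl

end Pool.Agent.Helper17.SLD.PkR3
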